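import Mathlib

set_option autoImplicit false

namespace Pool.Agent.H484Z.Lab

/-- the value at the branching point of two addresses, the first going left -/
def brv {A : Type} : (List Bool → A) → List Bool → List Bool → Option A
  | x, false :: _, true :: _ => some (x [])
  | x, false :: u, false :: v => brv (fun s => x (false :: s)) u v
  | x, true :: u, true :: v => brv (fun s => x (true :: s)) u v
  | _, true :: _, false :: _ => none
  | _, [], _ => none
  | _, _ :: _, [] => none

theorem brv_map {A B : Type} (g : A → B) : ∀ (u v : List Bool) (x : List Bool → A),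
    brv (fun s => g (x s)) u v = (brv x u v).map g
  | [], _, _ => by simp [brv]
  | false :: _, [], _ => by simp [brv]
  | true :: _, [], _ => by simp [brv]
  | false :: _, true :: _, _ => by simp [brv]
  | true :: _, false :: _, _ => by simp [brv]
  | false :: u, false :: v, x => by
      simp only [brv]; exact brv_map g u v (fun s => x (false :: s))
  | true :: u, true :: v, x => by
      simp only [brv]; exact brv_map g u v (fun s => x (true :: s))

theorem brv_asymm {A : Type} : ∀ (u v : List Bool) (x : List Bool → A) (a : A),
    brv x u v = some a → brv x v u = none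
  | [], _, _, _ => by simp [brv]
  | false :: _, [], _, _ => by simp [brv]
  | true :: _, [], _, _ => by simp [brv]
  | false :: _, true :: _, _, _ => by simp [brv]
  | true :: _, false :: _, _, _ => by simp [brv]
  | false :: u, false :: v, x, a => by
      simp only [brv]; exact brv_asymm u v _ a
  | true :: u, true :: v, x, a => by
      simp only [brv]; exact brv_asymm u v _ a

theorem brv_self {A : Type} (u : List Bool) (x : List Bool → A) : brv x u u = none := by
  cases h : brv x u u with
  | none => rfl
  | some a => rw [brv_asymm u u x a h] at h; exact absurd h (by simp)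

theorem brv_take {A : Type} : ∀ (j : ℕ) (u v u' v' : List Bool) (x : List Bool → A),
    u.take j = u'.take j → v.take j = v'.take j → u.take j ≠ v.take j →
    brv x u v = brv x u' v'
  | 0, _, _, _, _, _ => by simp
  | j + 1, u, v, u', v', x => by
      intro h1 h2 h3
      rcases u with _ | ⟨c, u⟩
      · rcases u' with _ | ⟨c', u'⟩
        · simp [brv]
        · simp at h1
      rcases u' with _ | ⟨c', u'⟩
      · simp at h1
      rcases v with _ | ⟨d, v⟩
      · rcases v' with _ | ⟨d', v'⟩
        · cases c <;> cases c' <;> simp [brv]
        · simp at h2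
      rcases v' with _ | ⟨d', v'⟩
      · simp at h2
      simp only [List.take_succ_cons, List.cons.injEq, ne_eq, not_and] at h1 h2 h3
      obtain ⟨rfl, h1⟩ := h1
      obtain ⟨rfl, h2⟩ := h2
      cases c <;> cases d
      · simp only [brv]; exact brv_take j u v u' v' _ h1 h2 (h3 rfl)
      · simp [brv]
      · simp [brv]
      · simp only [brv]; exact brv_take j u v u' v' _ h1 h2 (h3 rfl)

/-- the pairing argument: reading the value at the branching point from two labels needs
`|A| ^ (h / 2)` labels -/
theorem pair_count (h : ℕ) : ∀ (A Λ : Type) [Fintype A] (L : Finset Λ) (D : Λ → Λ → A),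
    (∀ x : List Bool → A, ∃ ℓ : List Bool → Λ, (∀ u, u.length = h → ℓ u ∈ L) ∧
      ∀ u v, u.length = h → v.length = h → ∀ a, brv x u v = some a → D (ℓ u) (ℓ v) = a) →
    Nonempty A → Fintype.card A ^ h ≤ L.card ^ 2 := by
  classical
  induction h with
  | zero =>
    intro A Λ _ L D H hA
    obtain ⟨a⟩ := hA
    obtain ⟨ℓ, h1, _⟩ := H (fun _ => a)
    have : 0 < L.card := Finset.card_pos.mpr ⟨_, h1 [] rfl⟩
    simp only [pow_zero]
    exact Nat.one_le_iff_ne_zero.mpr (pow_ne_zero _ this.ne')
  | succ h ih =>
    intro A Λ _ L D H hA
    have key : ∀ a : A, Fintype.card A ^ h ≤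
        ((L ×ˢ L).filter (fun p => D p.1 p.2 = a)).card := by
      intro a
      have := ih (A × A) (Λ × Λ) ((L ×ˢ L).filter (fun p => D p.1 p.2 = a))
        (fun p q => (D p.1 q.1, D p.2 q.2)) (by
          intro y
          let x : List Bool → A := fun s => match s with
            | [] => a
            | false :: t => (y t).1
            | true :: t => (y t).2
          obtain ⟨ℓ, h1, h2⟩ := H x
          refine ⟨fun u => (ℓ (false :: u), ℓ (true :: u)), ?_, ?_⟩
          · intro u hu
            refine Finset.mem_filter.mpr ⟨Finset.mem_product.mpr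
              ⟨h1 _ (by simp [hu]), h1 _ (by simp [hu])⟩, ?_⟩
            exact h2 _ _ (by simp [hu]) (by simp [hu]) a (by simp [brv, x])
          · intro u v hu hv b hb
            refine Prod.ext ?_ ?_
            · refine h2 _ _ (by simp [hu]) (by simp [hv]) _ ?_
              simp only [brv, x]
              rw [brv_map Prod.fst u v y, hb]; rfl
            · refine h2 _ _ (by simp [hu]) (by simp [hv]) _ ?_
              simp only [brv, x]
              rw [brv_map Prod.snd u v y, hb]; rfl) ⟨(a, a)⟩
      rw [Fintype.card_prod, mul_pow, ← sq] at this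
      exact (Nat.pow_le_pow_iff_left (by norm_num)).mp this
    have hs : (L ×ˢ L).card = ∑ a : A, ((L ×ˢ L).filter (fun p => D p.1 p.2 = a)).card :=
      Finset.card_eq_sum_card_fiberwise (fun _ _ => Finset.mem_coe.mpr (Finset.mem_univ _))
    rw [Finset.card_product, ← sq] at hs
    rw [hs]
    calc Fintype.card A ^ (h + 1) = ∑ _a : A, Fintype.card A ^ h := by
          simp [pow_succ, mul_comm]
      _ ≤ _ := Finset.sum_le_sum (fun a _ => key a)

/-- binary strings of length at most `m` -/
def strs : ℕ → Finset (List Bool)
  | 0 => {[]}
  | m + 1 => insert [] ((strs m).image (List.cons false) ∪ (strs m).image (List.cons true))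

theorem mem_strs : ∀ (m : ℕ) (l : List Bool), l.length ≤ m → l ∈ strs m
  | 0, l, h => by
      have : l = [] := List.length_eq_zero_iff.mp (Nat.le_zero.mp h)
      simp [strs, this]
  | m + 1, [], _ => by simp [strs]
  | m + 1, c :: l, h => by
      have := mem_strs m l (by simpa using h)
      cases c <;> simp [strs, this]

theorem card_strs : ∀ m : ℕ, (strs m).card + 1 ≤ 2 ^ (m + 1)
  | 0 => by simp [strs]
  | m + 1 => by
      have h := card_strs m
      have h1 : (strs (m + 1)).card ≤ (strs m).card + (strs m).card + 1 := by
        rw [strs]
        refine (Finset.card_insert_le _ _).trans (Nat.succ_le_succ ?_)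
        refine (Finset.card_union_le _ _).trans ?_
        exact Nat.add_le_add Finset.card_image_le Finset.card_image_le
      rw [pow_succ]; omega

end Pool.Agent.H484Z.Lab
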