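import Pool.Agent.H484Z.Lab.Defs

set_option autoImplicit false

namespace Pool.Agent.H484Z.Lab

/-- the labelled graph `(G, l)` is built by an expression -/
def Built (k : ℕ) {V : Type} (G : SimpleGraph V) (l : V → Fin k) : Prop :=
  ∃ e : CWExpr k, ∃ φ : V ≃ e.Vtx, (∀ u v, e.graph.Adj (φ u) (φ v) ↔ G.Adj u v) ∧
    ∀ v, e.lab (φ v) = l v

theorem Built.cw {k : ℕ} {V : Type} {G : SimpleGraph V} {l : V → Fin k} (h : Built k G l) :
    CliqueWidthLE G k := by
  obtain ⟨e, φ, h1, _⟩ := h
  exact ⟨e, ⟨⟨φ, h1 _ _⟩⟩⟩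

theorem Built.equiv {k : ℕ} {V W : Type} {G : SimpleGraph V} {l : V → Fin k} (h : Built k G l)
    (ψ : W ≃ V) {H : SimpleGraph W} {m : W → Fin k} (hH : ∀ u v, G.Adj (ψ u) (ψ v) ↔ H.Adj u v)
    (hm : ∀ v, l (ψ v) = m v) : Built k H m := by
  obtain ⟨e, φ, h1, h2⟩ := h
  exact ⟨e, ψ.trans φ, fun u v => (h1 _ _).trans (hH u v), fun v => (h2 _).trans (hm v)⟩

theorem Built.single {k : ℕ} (l : Unit → Fin k) : Built k (⊥ : SimpleGraph Unit) l :=
  ⟨.single (l ()), Equiv.refl _, fun _ _ => Iff.rfl, fun _ => rfl⟩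

theorem Built.union {k : ℕ} {V W : Type} {G : SimpleGraph V} {l : V → Fin k} {H : SimpleGraph W}
    {m : W → Fin k} (h : Built k G l) (h' : Built k H m) :
    Built k (SimpleGraph.sum G H) (Sum.elim l m) := by
  obtain ⟨e, φ, h1, h2⟩ := h
  obtain ⟨e', φ', h1', h2'⟩ := h'
  refine ⟨.union e e', Equiv.sumCongr φ φ', ?_, ?_⟩
  · rintro (u | u) (v | v)
    · exact h1 u v
    · exact Iff.rfl
    · exact Iff.rfl
    · exact h1' u v
  · rintro (u | u)
    · exact h2 u
    · exact h2' u

theorem Built.rename {k : ℕ} {V : Type} {G : SimpleGraph V} {l : V → Fin k} (h : Built k G l)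
    (i j : Fin k) : Built k G (fun v => if l v = i then j else l v) := by
  obtain ⟨e, φ, h1, h2⟩ := h
  refine ⟨.rename i j e, φ, h1, fun v => ?_⟩
  show (if e.lab (φ v) = i then j else e.lab (φ v)) = _
  rw [h2]

theorem Built.join {k : ℕ} {V : Type} {G : SimpleGraph V} {l : V → Fin k} (h : Built k G l)
    (i j : Fin k) (hij : i ≠ j) :
    Built k (G ⊔ SimpleGraph.fromRel (fun x y => l x = i ∧ l y = j)) l := by
  obtain ⟨e, φ, h1, h2⟩ := h
  refine ⟨.join i j hij e, φ, fun u v => ?_, h2⟩
  show (e.graph ⊔ SimpleGraph.fromRel (fun x y => e.lab x = i ∧ e.lab y = j)).Adj (φ u) (φ v) ↔ _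
  simp only [SimpleGraph.sup_adj, SimpleGraph.fromRel_adj, h1, h2, ne_eq,
    EmbeddingLike.apply_eq_iff_eq]

theorem Built.idem {k : ℕ} {V : Type} {G : SimpleGraph V} {l : V → Fin k} (h : Built k G l)
    (σ : Fin k → Fin k) (hσ : ∀ i, σ (σ i) = σ i) : Built k G (fun v => σ (l v)) := by
  have key : ∀ S : Finset (Fin k), Built k G (fun v => if l v ∈ S then σ (l v) else l v) := by
    intro S
    induction S using Finset.induction_on with
    | empty => simpa using h
    | insert i S hi ih =>
      refine (ih.rename i (σ i)).equiv (Equiv.refl _) (fun _ _ => Iff.rfl) (fun v => ?_)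
      simp only [Equiv.refl_apply, Finset.mem_insert]
      by_cases h1 : l v ∈ S
      · simp only [h1, if_true, or_true]
        split_ifs with h2
        · rw [← h2, hσ]
        · rfl
      · simp only [h1, if_false, or_false]
        split_ifs with h2
        · rw [h2]
        · rfl
  simpa using key Finset.univ

theorem Built.joins {k : ℕ} {V : Type} {G : SimpleGraph V} {l : V → Fin k} (h : Built k G l)
    (S : Finset (Fin k × Fin k)) (hS : ∀ p ∈ S, p.1 ≠ p.2) :
    Built k (G ⊔ SimpleGraph.fromRel (fun x y => (l x, l y) ∈ S)) l := by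
  induction S using Finset.induction_on with
  | empty =>
    refine h.equiv (Equiv.refl _) (fun u v => ?_) (fun _ => rfl)
    simp
  | insert p S hp ih =>
    have h1 := (ih (fun q hq => hS q (Finset.mem_insert_of_mem hq))).join p.1 p.2
      (hS p (Finset.mem_insert_self _ _))
    refine h1.equiv (Equiv.refl _) (fun u v => ?_) (fun _ => rfl)
    simp only [Equiv.refl_apply, SimpleGraph.sup_adj, SimpleGraph.fromRel_adj, Finset.mem_insert,
      Prod.ext_iff]
    tauto

theorem Built.empty {k : ℕ} : ∀ (n : ℕ) (l : Fin (n + 1) → Fin k),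
    Built k (⊥ : SimpleGraph (Fin (n + 1))) l
  | 0, l => (Built.single (fun _ => l 0)).equiv finOneEquiv (fun _ _ => Iff.rfl)
      (fun v => by rw [Fin.fin_one_eq_zero v])
  | n + 1, l => by
      have h1 := (Built.empty n (fun i => l (Fin.castAdd 1 i))).union
        (Built.empty 0 (fun i => l (Fin.natAdd (n + 1) i)))
      refine h1.equiv finSumFinEquiv.symm (fun u v => ?_) (fun v => ?_)
      · rcases finSumFinEquiv.symm u with a | a <;> rcases finSumFinEquiv.symm v with b | b <;>
          simp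
      · obtain ⟨w, rfl⟩ := finSumFinEquiv.surjective v
        rw [Equiv.symm_apply_apply]
        rcases w with a | a <;> rfl

end Pool.Agent.H484Z.Lab
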