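import Mathlib

set_option autoImplicit false

/-!
Adjacency labeling schemes, clique-width and twin-width.
-/

namespace Pool.Agent.H484Z.Lab

open Filter Topology

/-- A family of graphs, given by its members on each vertex set `Fin n`. -/
abbrev GraphClass : Type := (n : ℕ) → SimpleGraph (Fin n) → Prop

/-- The class `C` has an adjacency labeling scheme of size `f`: one decoder `D` on pairs of binary
strings such that every `n`-vertex graph of `C` has labels of at most `f n` bits from which `D`
decides the adjacency of any two distinct vertices. -/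
def HasScheme (C : GraphClass) (f : ℕ → ℝ) : Prop :=
  ∃ D : List Bool → List Bool → Bool, ∀ (n : ℕ) (G : SimpleGraph (Fin n)), C n G →
    ∃ ℓ : Fin n → List Bool, (∀ v, ((ℓ v).length : ℝ) ≤ f n) ∧
      ∀ u v, u ≠ v → (G.Adj u v ↔ D (ℓ u) (ℓ v) = true)

/-- The class `C` has a scheme of size `(c + o(1)) log₂ n`. -/
def HasLogScheme (C : GraphClass) (c : ℝ) : Prop :=
  ∃ ε : ℕ → ℝ, Tendsto ε atTop (𝓝 0) ∧ HasScheme C (fun n => (c + ε n) * Real.logb 2 n)

/-- Clique-width expressions with `k` labels: a single vertex with label `i`, disjoint union,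
joining all vertices of label `i` to all vertices of label `j ≠ i`, renaming label `i` to `j`. -/
inductive CWExpr (k : ℕ) : Type
  | single (i : Fin k) : CWExpr k
  | union (a b : CWExpr k) : CWExpr k
  | join (i j : Fin k) (hij : i ≠ j) (a : CWExpr k) : CWExpr k
  | rename (i j : Fin k) (a : CWExpr k) : CWExpr k

/-- The vertex set of the labelled graph built by an expression. -/
def CWExpr.Vtx {k : ℕ} : CWExpr k → Type
  | .single _ => Unit
  | .union a b => a.Vtx ⊕ b.Vtx
  | .join _ _ _ a => a.Vtx
  | .rename _ _ a => a.Vtx

/-- The labels of the vertices of the labelled graph built by an expression. -/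
def CWExpr.lab {k : ℕ} : (e : CWExpr k) → e.Vtx → Fin k
  | .single i => fun _ => i
  | .union a b => Sum.elim a.lab b.lab
  | .join _ _ _ a => a.lab
  | .rename i j a => fun v => if a.lab v = i then j else a.lab v

/-- The graph built by an expression. -/
def CWExpr.graph {k : ℕ} : (e : CWExpr k) → SimpleGraph e.Vtx
  | .single _ => ⊥
  | .union a b => SimpleGraph.sum a.graph b.graph
  | .join i j _ a => a.graph ⊔ SimpleGraph.fromRel (fun x y => a.lab x = i ∧ a.lab y = j)
  | .rename _ _ a => a.graph

/-- `G` has clique-width at most `k`: it is isomorphic to the graph of a `k`-label expression. -/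
def CliqueWidthLE {V : Type} (G : SimpleGraph V) (k : ℕ) : Prop :=
  ∃ e : CWExpr k, Nonempty (G ≃g e.graph)

/-- Two vertex sets are homogeneous: complete or anticomplete to each other. -/
def Homog {V : Type} (G : SimpleGraph V) (X Y : Set V) : Prop :=
  (∀ x ∈ X, ∀ y ∈ Y, G.Adj x y) ∨ (∀ x ∈ X, ∀ y ∈ Y, ¬ G.Adj x y)

/-- In the partition `r` of the vertices every part has red degree at most `d`: it is
non-homogeneous to at most `d` other parts. -/
def RedDegLE {V : Type} (G : SimpleGraph V) (d : ℕ) (r : Setoid V) : Prop :=
  ∀ X ∈ r.classes, {Y | Y ∈ r.classes ∧ Y ≠ X ∧ ¬ Homog G X Y}.encard ≤ d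

/-- The partition `s` arises from the partition `r` by merging two distinct parts
(the parts of `x` and of `y`). -/
def Merge {V : Type} (r s : Setoid V) : Prop :=
  ∃ x y, ¬ r x y ∧ ∀ u v, s u v ↔ (r u v ∨ (r u x ∧ r v y) ∨ (r u y ∧ r v x))

/-- `G` has twin-width at most `d`: the partition into singletons can be turned into the partition
with one part by repeatedly merging two parts, every partition on the way having all red degrees
at most `d`. -/
def TwinWidthLE {V : Type} (G : SimpleGraph V) (d : ℕ) : Prop :=
  Relation.ReflTransGen (fun r s : Setoid V => Merge r s ∧ RedDegLE G d s) ⊥ ⊤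

end Pool.Agent.H484Z.Lab
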