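import Pool.Agent.H484Z.Lab.Defs

set_option autoImplicit false

namespace Pool.Agent.H484Z.Lab

/-- merging the classes of `x` and `y` -/
def mergeAt {V : Type} (r : Setoid V) (x y : V) : Setoid V where
  r u v := r u v ∨ (r u x ∧ r v y) ∨ (r u y ∧ r v x)
  iseqv := by
    refine ⟨fun u => Or.inl (r.refl' u), ?_, ?_⟩
    · rintro u v (h | h | h)
      · exact Or.inl (r.symm' h)
      · exact Or.inr (Or.inr ⟨h.2, h.1⟩)
      · exact Or.inr (Or.inl ⟨h.2, h.1⟩)
    · rintro u v w (h | h | h) (g | g | g)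
      · exact Or.inl (r.trans' h g)
      · exact Or.inr (Or.inl ⟨r.trans' h g.1, g.2⟩)
      · exact Or.inr (Or.inr ⟨r.trans' h g.1, g.2⟩)
      · exact Or.inr (Or.inl ⟨h.1, r.trans' (r.symm' g) h.2⟩)
      · exact Or.inr (Or.inl ⟨h.1, g.2⟩)
      · exact Or.inl (r.trans' h.1 (r.symm' g.2))
      · exact Or.inr (Or.inr ⟨h.1, r.trans' (r.symm' g) h.2⟩)
      · exact Or.inl (r.trans' h.1 (r.symm' g.2))
      · exact Or.inr (Or.inr ⟨h.1, g.2⟩)

theorem path_of_between {V : Type} [Finite V] (G : SimpleGraph V) (d : ℕ) (s : Setoid V) :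
    ∀ r : Setoid V, r ≤ s → (∀ t, r ≤ t → t ≤ s → RedDegLE G d t) →
      Relation.ReflTransGen (fun r s : Setoid V => Merge r s ∧ RedDegLE G d s) r s := by
  have : Finite (Setoid V) :=
    Finite.of_injective (fun r : Setoid V => (r.r : V → V → Prop)) (fun _ _ h => Setoid.ext
      (fun a b => by
        have := congrFun (congrFun h a) b
        exact Iff.of_eq this))
  intro r
  induction r using WellFoundedGT.induction with
  | ind r ih =>
    intro hrs H
    by_cases he : r = s
    · rw [he]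
    have : ∃ x y, s x y ∧ ¬ r x y := by
      by_contra hc
      push Not at hc
      exact he (le_antisymm hrs (fun x y h => hc x y h))
    obtain ⟨x, y, hs, hr⟩ := this
    have h1 : r ≤ mergeAt r x y := fun _ _ h => Or.inl h
    have h2 : mergeAt r x y ≤ s := by
      rintro u v (h | h | h)
      · exact hrs h
      · exact s.trans' (hrs h.1) (s.trans' hs (s.symm' (hrs h.2)))
      · exact s.trans' (hrs h.1) (s.trans' (s.symm' hs) (s.symm' (hrs h.2)))
    have h3 : r < mergeAt r x y := by
      refine lt_of_le_of_ne h1 (fun h => hr ?_)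
      rw [h]
      exact Or.inr (Or.inl ⟨r.refl' x, r.refl' y⟩)
    refine Relation.ReflTransGen.head ⟨⟨x, y, hr, fun _ _ => Iff.rfl⟩, H _ h1 h2⟩ ?_
    exact ih _ h3 h2 (fun t ht ht' => H t (h1.trans ht) ht')

theorem redDeg_of_blocks {V B C : Type} [Fintype C] (G : SimpleGraph V) (r s : Setoid V)
    (β : V → B) (code : V → C) (h1 : ∀ x y, s x y → β x = β y)
    (h2 : ∀ x x' y y', s x x' → s y y' → β x ≠ β y → G.Adj x y → G.Adj x' y')
    (h3 : ∀ x y, β x = β y → code x = code y → r x y) (t : Setoid V) (hrt : r ≤ t) (hts : t ≤ s) :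
    RedDegLE G (Fintype.card C) t := by
  classical
  rintro X ⟨x, rfl⟩
  let f : C → Set V := fun c => {z | ∃ y, β y = β x ∧ code y = c ∧ t z y}
  have hsub : {Y | Y ∈ t.classes ∧ Y ≠ {z | t z x} ∧ ¬ Homog G {z | t z x} Y} ⊆ f '' Set.univ := by
    rintro Y ⟨⟨y, rfl⟩, _, hn⟩
    have hb : β y = β x := by
      by_contra hb
      apply hn
      by_cases ha : G.Adj x y
      · left
        intro a ha' b hb'
        exact h2 x a y b (s.symm' (hts ha')) (s.symm' (hts hb')) (fun h => hb h.symm) ha
      · right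
        intro a ha' b hb' hab
        refine ha (h2 a x b y (hts ha') (hts hb') ?_ hab)
        rw [h1 a x (hts ha'), h1 b y (hts hb')]
        exact fun h => hb h.symm
    refine ⟨code y, Set.mem_univ _, ?_⟩
    ext z
    constructor
    · rintro ⟨y', e1, e2, e3⟩
      exact t.trans' e3 (hrt (h3 y' y (e1.trans hb.symm) e2))
    · intro hz
      exact ⟨y, hb, rfl, hz⟩
  refine (Set.encard_le_encard hsub).trans ((Set.encard_image_le _ _).trans ?_)
  simp [Set.encard_univ]

end Pool.Agent.H484Z.Lab
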