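import Pool.Agent.H484Z.Lab.Count
import Pool.Agent.H484Z.Lab.Cw
import Pool.Agent.H484Z.Lab.Tww

set_option autoImplicit false

namespace Pool.Agent.H484Z.Lab

open Filter Topology

abbrev Mat (K : ℕ) : Type := Fin K → Fin K → Bool

abbrev TV (K h : ℕ) : Type := List.Vector Bool h × Fin K

def dirAdj {K : ℕ} (x : List Bool → Mat K) (u : List Bool) (a : Fin K) (v : List Bool)
    (b : Fin K) : Prop := ∃ M, brv x u v = some M ∧ M a b = true

/-- the tree graph of an instance -/
def tg {K : ℕ} (x : List Bool → Mat K) (h : ℕ) : SimpleGraph (TV K h) where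
  Adj p q := dirAdj x p.1.1 p.2 q.1.1 q.2 ∨ dirAdj x q.1.1 q.2 p.1.1 p.2
  symm := ⟨fun _ _ h => h.symm⟩
  loopless := ⟨fun p h => by
    rcases h with ⟨M, h, _⟩ | ⟨M, h, _⟩ <;> rw [brv_self] at h <;> exact absurd h (by simp)⟩

theorem Built.equiv' {k : ℕ} {V W : Type} {G : SimpleGraph V} {l : V → Fin k} (h : Built k G l)
    (ψ : V ≃ W) {H : SimpleGraph W} {m : W → Fin k} (hH : ∀ u v, G.Adj u v ↔ H.Adj (ψ u) (ψ v))
    (hm : ∀ v, l v = m (ψ v)) : Built k H m :=
  h.equiv ψ.symm (fun u v => by rw [hH]; simp) (fun v => by rw [hm]; simp)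

def iot {K : ℕ} (b : Bool) (a : Fin K) : Fin (K + K) :=
  if b then Fin.natAdd K a else Fin.castAdd K a

def prj {K : ℕ} (i : Fin (K + K)) : Fin K := Fin.addCases (motive := fun _ => Fin K) id id i

theorem prj_iot {K : ℕ} (b : Bool) (a : Fin K) : prj (iot b a) = a := by
  cases b <;> simp [prj, iot, -Fin.natAdd_eq_addNat]

theorem iot_inj {K : ℕ} {b c : Bool} {a a' : Fin K} (h : iot b a = iot c a') :
    b = c ∧ a = a' := by
  have h2 : a = a' := by rw [← prj_iot b a, h, prj_iot]
  refine ⟨?_, h2⟩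
  have ha := a.2
  have ha' := a'.2
  have := congrArg Fin.val h
  cases b <;> cases c <;> simp [iot] at this ⊢ <;> omega

def splitEquiv (K h : ℕ) : TV K h ⊕ TV K h ≃ TV K (h + 1) where
  toFun := Sum.elim (fun p => (⟨false :: p.1.1, by simp [p.1.2]⟩, p.2))
    (fun p => (⟨true :: p.1.1, by simp [p.1.2]⟩, p.2))
  invFun := fun p => if p.1.head = false then Sum.inl (p.1.tail, p.2) else Sum.inr (p.1.tail, p.2)
  left_inv := by
    rintro (⟨⟨u, hu⟩, a⟩ | ⟨⟨u, hu⟩, a⟩) <;> rfl
  right_inv := by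
    rintro ⟨⟨u, hu⟩, a⟩
    rcases u with _ | ⟨c, u⟩
    · simp at hu
    · cases c <;> rfl

theorem built_tg (K : ℕ) : ∀ (h : ℕ) (x : List Bool → Mat (K + 1)) (b : Bool),
    Built ((K + 1) + (K + 1)) (tg x h) (fun p => iot b p.2)
  | 0, x, b => by
      refine (Built.empty K (fun a => iot b a)).equiv
        (⟨fun p => p.2, fun a => (List.Vector.nil, a), ?_, fun _ => rfl⟩ : TV (K + 1) 0 ≃ Fin (K + 1))
        ?_ (fun _ => rfl)
      · rintro ⟨⟨u, hu⟩, a⟩
        obtain rfl : u = [] := List.length_eq_zero_iff.mp hu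
        rfl
      · rintro ⟨⟨u, hu⟩, a⟩ ⟨⟨v, hv⟩, c⟩
        obtain rfl : u = [] := List.length_eq_zero_iff.mp hu
        obtain rfl : v = [] := List.length_eq_zero_iff.mp hv
        simp [tg, dirAdj, brv]
  | h + 1, x, b => by
      classical
      have h0 := built_tg K h (fun s => x (false :: s)) false
      have h1 := built_tg K h (fun s => x (true :: s)) true
      let S : Finset (Fin ((K + 1) + (K + 1)) × Fin ((K + 1) + (K + 1))) :=
        Finset.univ.filter (fun p => ∃ a c, p.1 = iot false a ∧ p.2 = iot true c ∧ x [] a c = true)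
      have hS : ∀ p ∈ S, p.1 ≠ p.2 := by
        intro p hp he
        obtain ⟨a, c, e1, e2, _⟩ := (Finset.mem_filter.mp hp).2
        rw [e1, e2] at he
        exact absurd (iot_inj he).1 (by simp)
      have hmem : ∀ (d e : Bool) (a c : Fin (K + 1)),
          (iot d a, iot e c) ∈ S ↔ (d = false ∧ e = true ∧ x [] a c = true) := by
        intro d e a c
        constructor
        · intro hp
          obtain ⟨a', c', e1, e2, e3⟩ := (Finset.mem_filter.mp hp).2
          obtain ⟨f1, f2⟩ := iot_inj e1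
          obtain ⟨f3, f4⟩ := iot_inj e2
          exact ⟨f1, f3, by rw [f2, f4]; exact e3⟩
        · rintro ⟨rfl, rfl, e3⟩
          exact Finset.mem_filter.mpr ⟨Finset.mem_univ _, a, c, rfl, rfl, e3⟩
      have h2 := ((h0.union h1).joins S hS).idem (fun i => iot b (prj i))
        (fun i => by simp only [prj_iot])
      refine h2.equiv' (splitEquiv (K + 1) h) ?_ ?_
      · rintro (⟨⟨u, hu⟩, a⟩ | ⟨⟨u, hu⟩, a⟩) (⟨⟨v, hv⟩, c⟩ | ⟨⟨v, hv⟩, c⟩) <;>
          simp [SimpleGraph.fromRel_adj, hmem, tg, splitEquiv, dirAdj, brv]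
      · rintro (⟨⟨u, hu⟩, a⟩ | ⟨⟨u, hu⟩, a⟩) <;> simp [splitEquiv, prj_iot]

/-- level partitions -/
def lev {V : Type} {K : ℕ} (ad : V → List Bool) (col : V → Fin K) (j : ℕ) : Setoid V :=
  Setoid.ker (fun v => ((ad v).take j, col v))

theorem tww_of_tree {V : Type} [Finite V] {K h : ℕ} (x : List Bool → Mat K) (G : SimpleGraph V)
    (ad : V → List Bool) (col : V → Fin K) (hl : ∀ v, (ad v).length = h)
    (hinj : ∀ u v, ad u = ad v → col u = col v → u = v)
    (hG : ∀ u v, G.Adj u v ↔ (dirAdj x (ad u) (col u) (ad v) (col v) ∨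
      dirAdj x (ad v) (col v) (ad u) (col u))) : TwinWidthLE G (3 * K) := by
  have hcard : Fintype.card (Option Bool × Fin K) = 3 * K := by simp
  have hlev : ∀ (j : ℕ) (u v : V), lev ad col j u v ↔
      ((ad u).take j = (ad v).take j ∧ col u = col v) := by
    intro j u v
    exact Setoid.ker_def.trans Prod.ext_iff
  have hstep : ∀ j : ℕ, Relation.ReflTransGen
      (fun r s : Setoid V => Merge r s ∧ RedDegLE G (3 * K) s) (lev ad col (j + 1))
      (lev ad col j) := by
    intro j
    refine path_of_between G _ _ _ ?_ ?_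
    · intro u v huv
      rw [hlev] at huv ⊢
      refine ⟨?_, huv.2⟩
      have := congrArg (List.take j) huv.1
      simpa [List.take_take] using this
    · intro t h1 h2
      rw [← hcard]
      refine redDeg_of_blocks G _ _ (fun v => (ad v).take j) (fun v => ((ad v)[j]?, col v))
        ?_ ?_ ?_ t h1 h2
      · intro u v huv
        exact ((hlev j u v).mp huv).1
      · intro u u' v v' hu hv hne ha
        rw [hlev] at hu hv
        rw [hG] at ha ⊢
        unfold dirAdj at ha ⊢
        rw [← hu.2, ← hv.2, ← brv_take j _ _ _ _ x hu.1 hv.1 hne,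
          ← brv_take j _ _ _ _ x hv.1 hu.1 (fun h => hne h.symm)]
        exact ha
      · intro u v e1 e2
        rw [hlev]
        simp only [Prod.mk.injEq] at e2
        refine ⟨?_, e2.2⟩
        rw [List.take_add_one, List.take_add_one, e2.1]
        exact congrArg (· ++ _) e1
  have hdown : ∀ j : ℕ, Relation.ReflTransGen
      (fun r s : Setoid V => Merge r s ∧ RedDegLE G (3 * K) s) (lev ad col j)
      (lev ad col 0) := by
    intro j
    induction j with
    | zero => exact Relation.ReflTransGen.refl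
    | succ j ih => exact (hstep j).trans ih
  have htop : lev ad col h = ⊥ := by
    refine le_antisymm ?_ bot_le
    intro u v huv
    rw [hlev] at huv
    have e := huv.1
    rw [List.take_of_length_le (hl u).le, List.take_of_length_le (hl v).le] at e
    exact hinj u v e huv.2
  unfold TwinWidthLE
  rw [← htop]
  refine (hdown h).trans (path_of_between G _ _ _ le_top ?_)
  intro t h1 h2
  rw [← hcard]
  refine redDeg_of_blocks G (lev ad col 0) ⊤ (fun _ => ()) (fun v => (none, col v))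
    (fun _ _ _ => rfl) (fun _ _ _ _ _ _ hne => absurd rfl hne) ?_ t h1 h2
  intro u v _ e2
  rw [hlev]
  simp only [Prod.mk.injEq, true_and] at e2
  exact ⟨by simp, e2⟩

theorem card_TV (K h : ℕ) : Fintype.card (TV K h) = 2 ^ h * K := by simp

/-- the copy of the tree graph on `Fin n` -/
noncomputable def tgF {K : ℕ} (x : List Bool → Mat K) (h : ℕ) : SimpleGraph (Fin (2 ^ h * K)) :=
  (tg x h).comap (Fintype.equivFinOfCardEq (card_TV K h)).symm

theorem tgF_cw (K h : ℕ) (x : List Bool → Mat (K + 1)) :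
    CliqueWidthLE (tgF x h) ((K + 1) + (K + 1)) :=
  ((built_tg K h x false).equiv (Fintype.equivFinOfCardEq (card_TV (K + 1) h)).symm
    (fun _ _ => Iff.rfl) (fun _ => rfl)).cw

theorem tgF_tww (K h : ℕ) (x : List Bool → Mat K) : TwinWidthLE (tgF x h) (3 * K) := by
  refine tww_of_tree (h := h) x _
    (fun v => ((Fintype.equivFinOfCardEq (card_TV K h)).symm v).1.1)
    (fun v => ((Fintype.equivFinOfCardEq (card_TV K h)).symm v).2)
    (fun v => ((Fintype.equivFinOfCardEq (card_TV K h)).symm v).1.2) ?_ (fun _ _ => Iff.rfl)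
  intro u v e1 e2
  apply (Fintype.equivFinOfCardEq (card_TV K h)).symm.injective
  exact Prod.ext (Subtype.ext e1) e2

theorem scheme_lower {C : GraphClass} {f : ℕ → ℝ} (K h : ℕ) (hK : 0 < K)
    (hC : ∀ x : List Bool → Mat K, C _ (tgF x h)) (H : HasScheme C f) :
    (K : ℝ) * h ≤ 2 * (f (2 ^ h * K) + 1) := by
  classical
  obtain ⟨D, hD⟩ := H
  set e := Fintype.equivFinOfCardEq (card_TV K h) with he
  set m := ⌊f (2 ^ h * K)⌋₊ with hm
  have hf0 : 0 ≤ f (2 ^ h * K) := by
    obtain ⟨ℓ, h1, _⟩ := hD _ _ (hC (fun _ _ _ => false))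
    exact le_trans (Nat.cast_nonneg _) (h1 ⟨0, by positivity⟩)
  have key := pair_count h (Mat K) (Fin K → List Bool) (Fintype.piFinset (fun _ => strs m))
    (fun p q a b => D (p a) (q b)) (by
      intro x
      obtain ⟨ℓ, h1, h2⟩ := hD _ _ (hC x)
      refine ⟨fun u a => if hu : u.length = h then ℓ (e (⟨u, hu⟩, a)) else [], ?_, ?_⟩
      · intro u hu
        refine Fintype.mem_piFinset.mpr (fun a => ?_)
        simp only [hu, dif_pos]
        exact mem_strs _ _ (Nat.le_floor (h1 _))
      · intro u v hu hv M hM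
        funext a b
        simp only [hu, hv, dif_pos]
        have hne : e (⟨u, hu⟩, a) ≠ e (⟨v, hv⟩, b) := by
          intro hh
          have := congrArg (fun p : TV K h => p.1.1) (e.injective hh)
          simp only at this
          rw [this, brv_self] at hM
          exact absurd hM (by simp)
        have h3 := h2 _ _ hne
        have h4 : (tgF x h).Adj (e (⟨u, hu⟩, a)) (e (⟨v, hv⟩, b)) ↔ M a b = true := by
          simp only [tgF, SimpleGraph.comap_adj, ← he, Equiv.symm_apply_apply]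
          simp [tg, dirAdj, hM, brv_asymm u v x M hM]
        rw [h4] at h3
        exact (Bool.eq_iff_iff.mpr h3).symm) ⟨fun _ _ => false⟩
  have c1 : Fintype.card (Mat K) = 2 ^ (K * K) := by simp [pow_mul]
  have c2 : (Fintype.piFinset (fun _ : Fin K => strs m)).card ≤ 2 ^ ((m + 1) * K) := by
    rw [Fintype.card_piFinset, Finset.prod_const, Finset.card_univ, Fintype.card_fin, pow_mul]
    exact Nat.pow_le_pow_left (by have := card_strs m; omega) _
  have c3 : 2 ^ (K * K * h) ≤ 2 ^ ((m + 1) * K * 2) := by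
    rw [pow_mul, pow_mul _ ((m + 1) * K), ← c1]
    exact key.trans (Nat.pow_le_pow_left c2 _)
  have c4 : K * K * h ≤ (m + 1) * K * 2 := (Nat.pow_le_pow_iff_right (by norm_num)).mp c3
  have c5 : K * h ≤ 2 * (m + 1) := by
    refine Nat.le_of_mul_le_mul_left ?_ hK
    calc K * (K * h) = K * K * h := by ring
      _ ≤ (m + 1) * K * 2 := c4
      _ = K * (2 * (m + 1)) := by ring
  have c6 : (K : ℝ) * h ≤ 2 * ((m : ℝ) + 1) := by exact_mod_cast c5
  have c7 : (m : ℝ) ≤ f (2 ^ h * K) := Nat.floor_le hf0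
  linarith

theorem no_log_scheme {C : GraphClass} (c : ℝ) (K : ℕ) (hK : 0 < K) (hc : c < (K : ℝ) / 2)
    (hC : ∀ (h : ℕ) (x : List Bool → Mat K), C _ (tgF x h)) : ¬ HasLogScheme C c := by
  rintro ⟨ε, hε, H⟩
  set δ : ℝ := ((K : ℝ) / 2 - c) / 2 with hδ
  have hδ0 : 0 < δ := by rw [hδ]; linarith
  have hKR : (0 : ℝ) < K := by exact_mod_cast hK
  obtain ⟨N, hN⟩ := eventually_atTop.mp (hε.eventually (gt_mem_nhds hδ0))
  set B : ℝ := (K : ℝ) / 2 * Real.logb 2 K + 1 with hB
  obtain ⟨h0, hh0⟩ := exists_nat_gt (B / δ)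
  set h := max h0 N with hh
  have e1 : N ≤ 2 ^ h * K := by
    calc N ≤ h := le_max_right _ _
      _ ≤ 2 ^ h := (Nat.lt_two_pow_self).le
      _ ≤ 2 ^ h * K := Nat.le_mul_of_pos_right _ hK
  have e2 := hN _ e1
  have e3 := scheme_lower K h hK (hC h) H
  have e4 : Real.logb 2 ((2 ^ h * K : ℕ) : ℝ) = h + Real.logb 2 K := by
    push_cast
    rw [Real.logb_mul (by positivity) hKR.ne', Real.logb_pow]
    simp
  simp only [e4] at e3
  have e5 : 0 ≤ Real.logb 2 K := Real.logb_nonneg (by norm_num) (by exact_mod_cast hK)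
  have e6 : (h0 : ℝ) ≤ h := by exact_mod_cast le_max_left _ _
  have e7 : B < δ * h := by
    have : B / δ < h := lt_of_lt_of_le hh0 e6
    rw [div_lt_iff₀ hδ0] at this
    linarith
  have e8 : (0 : ℝ) ≤ h := Nat.cast_nonneg _
  have e9 : c + ε (2 ^ h * K) ≤ (K : ℝ) / 2 - δ := by
    have : c = (K : ℝ) / 2 - 2 * δ := by rw [hδ]; ring
    linarith
  have e10 : (c + ε (2 ^ h * K)) * (h + Real.logb 2 K) ≤
      ((K : ℝ) / 2 - δ) * (h + Real.logb 2 K) :=
    mul_le_mul_of_nonneg_right e9 (by linarith)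
  have e11 : 0 ≤ δ * Real.logb 2 K := mul_nonneg hδ0.le e5
  nlinarith

end Pool.Agent.H484Z.Lab
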